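import Pool.Agent.Helper960.Inf.Final

open Filter Topology Metric

namespace Pool.Agent.Results.MP_e49600_an.Main

/-- `f` is an entire function of exponential type. -/
def ExpType (f : ℂ → ℂ) : Prop :=
  Differentiable ℂ f ∧ ∃ A B : ℝ, ∀ z, ‖f z‖ ≤ A * Real.exp (B * ‖z‖)

/-- The operator `φ(D) F = ∑ aₖ F⁽ᵏ⁾`, where `φ t = ∑ aₖ tᵏ`, `aₖ = φ⁽ᵏ⁾(0) / k!`. -/
noncomputable def opD (φ F : ℂ → ℂ) (z : ℂ) : ℂ :=
  ∑' k : ℕ, iteratedDeriv k φ 0 / (k.factorial : ℂ) * iteratedDeriv k F z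

/-- `ρ(r)` is a proximate order with limit `ρ₀`: it is differentiable for large `r`, tends to `ρ₀`,
and `r ρ'(r) log r → 0`. -/
def IsProximateOrder (ρ : ℝ → ℝ) (ρ₀ : ℝ) : Prop :=
  (∃ r₀ : ℝ, ∀ r > r₀, DifferentiableAt ℝ ρ r) ∧ Tendsto ρ atTop (𝓝 ρ₀) ∧
    Tendsto (fun r : ℝ => r * deriv ρ r * Real.log r) atTop (𝓝 0)

/-- The type `limsup_{r → ∞} r^{-ρ(r)} log M_F(r)`, `M_F(r) = max_{|z| = r} |F z|`. A proximate
order `ρ(r)` is a proximate order of `F` if this is positive and finite. -/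
noncomputable def typ (ρ : ℝ → ℝ) (F : ℂ → ℂ) : EReal :=
  limsup (fun r : ℝ => ENNReal.log (⨆ z ∈ sphere (0 : ℂ) r, ‖F z‖ₑ) / ((r ^ ρ r : ℝ) : EReal)) atTop

/-- The indicator `h_F(θ) = limsup_{r → ∞} r^{-ρ(r)} log |F (r e^{iθ})|`, with `log 0 = -∞`. -/
noncomputable def indicator (ρ : ℝ → ℝ) (F : ℂ → ℂ) (θ : ℝ) : EReal :=
  limsup (fun r : ℝ =>
    ENNReal.log ‖F (r * Complex.exp (θ * Complex.I))‖ₑ / ((r ^ ρ r : ℝ) : EReal)) atTop

/-- `F` is entire of completely regular growth with respect to `ρ(r)`: its type is finite, and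
there is a `C₀`-set `⋃ⱼ {|z - cⱼ| < sⱼ}` (`R⁻¹ ∑_{|cⱼ| < R} sⱼ → 0` as `R → ∞`) outside of which
`r^{-ρ(r)} log |F (r e^{iθ})| → h_F(θ)` as `r → ∞`, uniformly in `θ`, written as
`e^{(h_F(θ) - ε) r^{ρ(r)}} ≤ |F (r e^{iθ})| ≤ e^{(h_F(θ) + ε) r^{ρ(r)}}`. -/
def CRG (ρ : ℝ → ℝ) (F : ℂ → ℂ) : Prop :=
  Differentiable ℂ F ∧ typ ρ F < ⊤ ∧ ∃ h : ℝ → ℝ, (∀ θ, indicator ρ F θ = h θ) ∧
    ∃ (c : ℕ → ℂ) (s : ℕ → ℝ), (∀ j, 0 ≤ s j) ∧
      Tendsto (fun R : ℝ =>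
        (∑' j, if ‖c j‖ < R then ENNReal.ofReal (s j) else 0) / ENNReal.ofReal R) atTop (𝓝 0) ∧
      ∀ ε > 0, ∃ R₀ : ℝ, ∀ r ≥ R₀, ∀ θ : ℝ,
        (∀ j, s j ≤ ‖r * Complex.exp (θ * Complex.I) - c j‖) →
          Real.exp ((h θ - ε) * r ^ ρ r) ≤ ‖F (r * Complex.exp (θ * Complex.I))‖ ∧
          ‖F (r * Complex.exp (θ * Complex.I))‖ ≤ Real.exp ((h θ + ε) * r ^ ρ r)

/-- **Negative answer to Q1.** There is an entire function `φ ≢ 0` of exponential type such that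
for `f z = e^{z²}` (of order `2`, of completely regular growth with respect to its proximate order
`ρ(r) = 2`) the equation `φ(D) F = f` has no entire solution of completely regular growth with
respect to `ρ(r)`. The same holds for every function `ρ(r)` with respect to which `f` has positive
finite type and completely regular growth. -/
theorem result : ∃ φ : ℂ → ℂ, ExpType φ ∧ (∃ t, φ t ≠ 0) ∧
    (IsProximateOrder (fun _ => 2) 2 ∧ 0 < typ (fun _ => 2) (fun z => Complex.exp (z ^ 2)) ∧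
      CRG (fun _ => 2) (fun z => Complex.exp (z ^ 2))) ∧
    ∀ ρ : ℝ → ℝ, 0 < typ ρ (fun z => Complex.exp (z ^ 2)) → CRG ρ (fun z => Complex.exp (z ^ 2)) →
      ∀ F : ℂ → ℂ, Differentiable ℂ F → (∀ z, opD φ F z = Complex.exp (z ^ 2)) → ¬ CRG ρ F :=
  Pool.Agent.Helper960.Inf.final

end Pool.Agent.Results.MP_e49600_an.Main
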